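import Pool.Agent.Helper20.EQ.St2

set_option autoImplicit false

open MeasureTheory Set Filter Topology
open scoped ENNReal RealInnerProductSpace

namespace Pool.Agent.Helper97.EQ

open Pool.Agent.Helper68.LM (Pl BB Bd Av HL ft fm DQ)
open Pool.Agent.Helper20.RG Pool.Agent.Helper20.EQ

/-- dyadic cell through `x` -/
def Qc (s : ℝ) (k : ℤ) (A : ℕ) (x : Pl) : Set Pl :=
  {y | ⌊y 0 / (2 : ℝ) ^ k⌋ = ⌊x 0 / (2 : ℝ) ^ k⌋ ∧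
    ⌊pr s y / (2 : ℝ) ^ (k - (A : ℤ))⌋ = ⌊pr s x / (2 : ℝ) ^ (k - (A : ℤ))⌋}

theorem pr_sub (s : ℝ) (x y : Pl) : pr s (x - y) = pr s x - pr s y := by
  simp only [pr, PiLp.sub_apply]; ring

theorem pr_smul (s a : ℝ) (x : Pl) : pr s (a • x) = a * pr s x := by
  simp only [pr, PiLp.smul_apply, smul_eq_mul]; ring

theorem mem_Qc_self (s : ℝ) (k : ℤ) (A : ℕ) (x : Pl) : x ∈ Qc s k A x := ⟨rfl, rfl⟩

theorem Qc_eq {s : ℝ} {k : ℤ} {A : ℕ} {x y : Pl} (h : y ∈ Qc s k A x) :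
    Qc s k A y = Qc s k A x := by
  ext z
  simp only [Qc, Set.mem_ofPred_eq] at h ⊢
  rw [h.1, h.2]

theorem Qc_mono {s : ℝ} {k : ℤ} {A A' : ℕ} {x y : Pl} (hA : A' ≤ A) (h : y ∈ Qc s k A x) :
    y ∈ Qc s k A' x := by
  refine ⟨h.1, ?_⟩
  have e : ∀ a : ℝ, a / (2 : ℝ) ^ (k - (A' : ℤ)) = a / (2 : ℝ) ^ (k - (A : ℤ)) / ((2 ^ (A - A') : ℕ) : ℝ) := by
    intro a
    rw [div_div]
    congr 1
    push_cast
    rw [← zpow_natCast, ← zpow_add₀ (by norm_num)]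
    congr 1
    push_cast [Nat.cast_sub hA]
    ring
  rw [e, e, Int.floor_div_natCast, Int.floor_div_natCast, h.2]

theorem Qc_near {s : ℝ} {k : ℤ} {A : ℕ} {x y : Pl} (h : y ∈ Qc s k A x) :
    |y 0 - x 0| ≤ (2 : ℝ) ^ k ∧ |pr s (y - x)| ≤ (2 : ℝ) ^ (k - (A : ℤ)) := by
  have h1 := Int.abs_sub_lt_one_of_floor_eq_floor h.1
  have h2 := Int.abs_sub_lt_one_of_floor_eq_floor h.2
  have p1 : (0 : ℝ) < (2 : ℝ) ^ k := by positivity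
  have p2 : (0 : ℝ) < (2 : ℝ) ^ (k - (A : ℤ)) := by positivity
  rw [← sub_div, abs_div, abs_of_pos p1, div_lt_one p1] at h1
  rw [← sub_div, abs_div, abs_of_pos p2, div_lt_one p2, ← pr_sub] at h2
  exact ⟨h1.le, h2.le⟩

theorem meas0 : Measurable (fun y : Pl => y 0) := by fun_prop
theorem measp (s : ℝ) : Measurable (fun y : Pl => pr s y) := by unfold pr; fun_prop

theorem Qc_meas (s : ℝ) (k : ℤ) (A : ℕ) (x : Pl) : MeasurableSet (Qc s k A x) := by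
  have h1 : Measurable (fun y : Pl => ⌊y 0 / (2 : ℝ) ^ k⌋) :=
    Int.measurable_floor.comp (meas0.div_const _)
  have h2 : Measurable (fun y : Pl => ⌊pr s y / (2 : ℝ) ^ (k - (A : ℤ))⌋) :=
    Int.measurable_floor.comp ((measp s).div_const _)
  exact (h1 (measurableSet_singleton _)).inter (h2 (measurableSet_singleton _))

theorem Qc_vol (hPT : StPT) (hCEF : StCEF) (s : ℝ) (hs : |s| ≤ 1) (k : ℤ) (A : ℕ) (x : Pl) :
    ENNReal.ofReal (1 / 4 * ((2 : ℝ) ^ k * (2 : ℝ) ^ (k - (A : ℤ)))) ≤ volume (Qc s k A x) := by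
  obtain ⟨hp, -⟩ := hPT
  have p1 : (0 : ℝ) < (2 : ℝ) ^ k := by positivity
  have p2 : (0 : ℝ) < (2 : ℝ) ^ (k - (A : ℤ)) := by positivity
  set i : ℤ := ⌊x 0 / (2 : ℝ) ^ k⌋ with hi
  set j : ℤ := ⌊pr s x / (2 : ℝ) ^ (k - (A : ℤ))⌋ with hj
  set z : Pl := pt ((i + 1 / 2) * (2 : ℝ) ^ k)
    ((j + 1 / 2) * (2 : ℝ) ^ (k - (A : ℤ)) + s * ((i + 1 / 2) * (2 : ℝ) ^ k)) with hz
  have hz0 : z 0 = (i + 1 / 2) * (2 : ℝ) ^ k := (hp _ _).1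
  have hz1 : pr s z = (j + 1 / 2) * (2 : ℝ) ^ (k - (A : ℤ)) := by
    rw [pr, hz0, show z 1 = _ from (hp _ _).2]; ring
  obtain ⟨-, hv, -⟩ := hCEF s (1 / 2) (1 / 2) k A z hs (by norm_num) (by norm_num)
  have hv' : ENNReal.ofReal (1 / 4 * ((2 : ℝ) ^ k * (2 : ℝ) ^ (k - (A : ℤ)))) =
      volume (Cel s (1 / 2) (1 / 2) k A z) := by
    rw [hv]; congr 1; ring
  rw [hv']
  refine measure_mono fun y hy => ?_
  obtain ⟨h1, h2⟩ := hy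
  rw [pr_sub, hz1] at h2
  rw [hz0] at h1
  rw [abs_le] at h1 h2
  constructor
  · rw [← hi, Int.floor_eq_iff, le_div_iff₀ p1, div_lt_iff₀ p1]
    constructor <;> nlinarith
  · rw [← hj, Int.floor_eq_iff, le_div_iff₀ p2, div_lt_iff₀ p2]
    constructor <;> nlinarith

/-- Tonelli: the integral of `Y g` over `Q` is at most the integral of `g` over `T` if the kernel maps
`Q` into `T` -/
theorem lint_Y (s : ℝ) (c : Pl) (n : ℕ) (k : ℤ) (g : Pl → ℝ) (hg : Measurable g)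
    (Q T : Set Pl) (hQ : MeasurableSet Q) (hT : MeasurableSet T)
    (hQT : ∀ y ∈ Q, ∀ t ∈ Icc (-(1 / 2) : ℝ) (1 / 2), ∀ w ∈ Sq 0 (1 / 2),
      y - ((2 : ℝ) ^ k • c + ((2 : ℝ) ^ k * (2 : ℝ) ^ 0) • (t • E s) +
        (2 * (2 : ℝ) ^ (k - (n : ℤ))) • w) ∈ T)
    (hv1 : volume (Sq 0 (1 / 2)) = 1) (hv2 : MeasurableSet (Sq 0 (1 / 2))) :
    ∫⁻ y in Q, ‖Y s c n ((2 : ℝ) ^ 0) k g y‖ₑ ≤ ∫⁻ y in T, ‖g y‖ₑ := by
  set v : ℝ → Pl → Pl := fun t w => (2 : ℝ) ^ k • c + ((2 : ℝ) ^ k * (2 : ℝ) ^ 0) • (t • E s) +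
        (2 * (2 : ℝ) ^ (k - (n : ℤ))) • w with hv
  have step1 : ∀ y, ‖Y s c n ((2 : ℝ) ^ 0) k g y‖ₑ ≤
      ∫⁻ t in Icc (-(1 / 2) : ℝ) (1 / 2), ∫⁻ w in Sq 0 (1 / 2), ‖g (y - v t w)‖ₑ := by
    intro y
    unfold Y
    have a1 : ‖Av (sg s) ((2 : ℝ) ^ k * (2 : ℝ) ^ 0) (Av bx (2 * (2 : ℝ) ^ (k - (n : ℤ))) g)
        (y - (2 : ℝ) ^ k • c)‖ₑ ≤ ∫⁻ e, ‖Av bx (2 * (2 : ℝ) ^ (k - (n : ℤ))) g
          (y - (2 : ℝ) ^ k • c - ((2 : ℝ) ^ k * (2 : ℝ) ^ 0) • e)‖ₑ ∂sg s :=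
      enorm_integral_le_lintegral_enorm _
    refine a1.trans ?_
    refine (lintegral_map_le _ _).trans ?_
    refine lintegral_mono fun t => ?_
    have a2 : ‖Av bx (2 * (2 : ℝ) ^ (k - (n : ℤ))) g
          (y - (2 : ℝ) ^ k • c - ((2 : ℝ) ^ k * (2 : ℝ) ^ 0) • (t • E s))‖ₑ ≤
        ∫⁻ w, ‖g (y - (2 : ℝ) ^ k • c - ((2 : ℝ) ^ k * (2 : ℝ) ^ 0) • (t • E s) -
          (2 * (2 : ℝ) ^ (k - (n : ℤ))) • w)‖ₑ ∂bx := enorm_integral_le_lintegral_enorm _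
    refine a2.trans (le_of_eq ?_)
    unfold bx
    refine lintegral_congr fun w => ?_
    rw [hv]
    congr 2
    module
  have hm : Measurable (fun q : Pl × ℝ × Pl => ‖g (q.1 - v q.2.1 q.2.2)‖ₑ) := by
    have : Measurable (fun q : Pl × ℝ × Pl => q.1 - v q.2.1 q.2.2) := by
      rw [hv]; fun_prop
    exact (hg.comp this).enorm
  calc ∫⁻ y in Q, ‖Y s c n ((2 : ℝ) ^ 0) k g y‖ₑ
      ≤ ∫⁻ y in Q, ∫⁻ t in Icc (-(1 / 2) : ℝ) (1 / 2), ∫⁻ w in Sq 0 (1 / 2), ‖g (y - v t w)‖ₑ :=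
        lintegral_mono step1
    _ = ∫⁻ t in Icc (-(1 / 2) : ℝ) (1 / 2), ∫⁻ y in Q, ∫⁻ w in Sq 0 (1 / 2), ‖g (y - v t w)‖ₑ := by
        rw [lintegral_lintegral_swap]
        have : Measurable (fun q : (Pl × ℝ) × Pl => ‖g (q.1.1 - v q.1.2 q.2)‖ₑ) :=
          hm.comp (f := fun q : (Pl × ℝ) × Pl => (q.1.1, q.1.2, q.2)) (by fun_prop)
        exact (this.lintegral_prod_right' (ν := volume.restrict (Sq 0 (1 / 2)))).aemeasurable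
    _ ≤ ∫⁻ t in Icc (-(1 / 2) : ℝ) (1 / 2), ∫⁻ y in T, ‖g y‖ₑ := by
        refine setLIntegral_mono' measurableSet_Icc fun t ht => ?_
        rw [lintegral_lintegral_swap]
        · calc ∫⁻ w in Sq 0 (1 / 2), ∫⁻ y in Q, ‖g (y - v t w)‖ₑ
              ≤ ∫⁻ w in Sq 0 (1 / 2), ∫⁻ y in T, ‖g y‖ₑ := by
                refine setLIntegral_mono' hv2 fun w hw => ?_
                rw [← lintegral_indicator hQ, ← lintegral_indicator hT,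
                  ← lintegral_sub_right_eq_self (T.indicator fun y => ‖g y‖ₑ) (v t w)]
                refine lintegral_mono fun y => ?_
                by_cases hy : y ∈ Q
                · rw [indicator_of_mem hy, indicator_of_mem (hQT y hy t ht w hw)]
                · rw [indicator_of_notMem hy]; exact bot_le
            _ = ∫⁻ y in T, ‖g y‖ₑ := by rw [setLIntegral_const, hv1, mul_one]
        · have : Measurable (fun q : Pl × Pl => ‖g (q.1 - v t q.2)‖ₑ) :=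
            hm.comp (f := fun q : Pl × Pl => (q.1, t, q.2)) (by fun_prop)
          exact this.aemeasurable
    _ = ∫⁻ y in T, ‖g y‖ₑ := by
        rw [setLIntegral_const, Real.volume_Icc]
        norm_num

theorem cheb (p : ℕ) (f : Pl → ℝ) (hf : Measurable f) (S : Set Pl) (hS : MeasurableSet S) (η : ℝ)
    (hη : 0 < η) : volume {x | x ∈ S ∧ η ≤ |f x|} ≤
      ENNReal.ofReal (1 / η ^ p) * ∫⁻ x in S, ‖f x‖ₑ ^ p := by
  have hm : Measurable (fun x => ‖f x‖ₑ ^ p) := hf.enorm.pow_const p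
  have h1 := mul_meas_ge_le_lintegral₀ (μ := volume.restrict S) hm.aemeasurable
    (ENNReal.ofReal (η ^ p))
  have hp : 0 < η ^ p := by positivity
  have h2 : volume {x | x ∈ S ∧ η ≤ |f x|} ≤
      (volume.restrict S) {x | ENNReal.ofReal (η ^ p) ≤ ‖f x‖ₑ ^ p} := by
    rw [Measure.restrict_apply' hS]
    refine measure_mono fun x hx => ⟨?_, hx.1⟩
    show ENNReal.ofReal (η ^ p) ≤ ‖f x‖ₑ ^ p
    rw [← ofReal_norm, ← ENNReal.ofReal_pow (norm_nonneg _)]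
    exact ENNReal.ofReal_le_ofReal (pow_le_pow_left₀ hη.le hx.2 p)
  calc volume {x | x ∈ S ∧ η ≤ |f x|} ≤ (volume.restrict S) {x | ENNReal.ofReal (η ^ p) ≤ ‖f x‖ₑ ^ p} := h2
    _ = ENNReal.ofReal (1 / η ^ p) * (ENNReal.ofReal (η ^ p) *
          (volume.restrict S) {x | ENNReal.ofReal (η ^ p) ≤ ‖f x‖ₑ ^ p}) := by
        rw [← mul_assoc, ← ENNReal.ofReal_mul (by positivity), one_div, inv_mul_cancel₀ hp.ne',
          ENNReal.ofReal_one, one_mul]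
    _ ≤ _ := by gcongr

theorem locT (hPT : StPT) (s s' : ℝ) (hs : |s| ≤ 1) (k : ℤ) (A n : ℕ) (hAn : A ≤ n)
    (x₀ y c c' : Pl) (n1 : |(c - c') 0| ≤ 1) (n2 : |pr s (c - c')| ≤ (2 : ℝ) ^ (-(A : ℤ)))
    (hss : |s' - s| ≤ (2 : ℝ) ^ (-(A : ℤ))) (hy : y ∈ Qc s k A x₀) (t : ℝ)
    (ht : t ∈ Icc (-(1 / 2) : ℝ) (1 / 2)) (w : Pl) (hw : w ∈ Sq 0 (1 / 2)) :
    y - ((2 : ℝ) ^ k • c' + ((2 : ℝ) ^ k * (2 : ℝ) ^ 0) • (t • E s') +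
      (2 * (2 : ℝ) ^ (k - (n : ℤ))) • w) ∈ Cel s 8 12 k A (x₀ - (2 : ℝ) ^ k • c) := by
  have hp := hPT.1
  have p1 : (0 : ℝ) < (2 : ℝ) ^ k := by positivity
  have p23 : (2 : ℝ) ^ k * (2 : ℝ) ^ (-(A : ℤ)) = (2 : ℝ) ^ (k - (A : ℤ)) := by
    rw [← zpow_add₀ (by norm_num)]; congr 1
  have p21 : (2 : ℝ) ^ (k - (A : ℤ)) ≤ (2 : ℝ) ^ k := zpow_le_zpow_right₀ (by norm_num) (by omega)
  obtain ⟨q1, q2⟩ := Qc_near hy
  obtain ⟨w0, w1⟩ := hw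
  simp only [PiLp.zero_apply, sub_zero] at w0 w1
  have ht' : |t| ≤ 1 / 2 := abs_le.2 ht
  have r1 : (2 : ℝ) ^ (k - (n : ℤ)) ≤ (2 : ℝ) ^ (k - (A : ℤ)) :=
    zpow_le_zpow_right₀ (by norm_num) (by omega)
  have r0 : (0 : ℝ) < (2 : ℝ) ^ (k - (n : ℤ)) := by positivity
  have hE0 : (E s') 0 = 1 := (hp _ _).1
  have hE1 : (E s') 1 = s' := (hp _ _).2
  have a3 : |(2 : ℝ) ^ k * (c - c') 0| ≤ (2 : ℝ) ^ k := by
    rw [abs_mul, abs_of_pos p1]; exact mul_le_of_le_one_right p1.le n1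
  have a4 : |(2 : ℝ) ^ k * pr s (c - c')| ≤ (2 : ℝ) ^ (k - (A : ℤ)) := by
    rw [abs_mul, abs_of_pos p1, ← p23]
    exact mul_le_mul_of_nonneg_left n2 p1.le
  have a5 : |(2 : ℝ) ^ k * t| ≤ (2 : ℝ) ^ k / 2 := by
    rw [abs_mul, abs_of_pos p1]
    calc (2 : ℝ) ^ k * |t| ≤ (2 : ℝ) ^ k * (1 / 2) := by gcongr
      _ = _ := by ring
  have a6 : |(2 : ℝ) ^ k * t * (s' - s)| ≤ (2 : ℝ) ^ (k - (A : ℤ)) / 2 := by
    rw [abs_mul, ← p23]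
    calc |(2 : ℝ) ^ k * t| * |s' - s| ≤ (2 : ℝ) ^ k / 2 * (2 : ℝ) ^ (-(A : ℤ)) := by gcongr
      _ = _ := by ring
  have a7 : |2 * (2 : ℝ) ^ (k - (n : ℤ)) * w 0| ≤ (2 : ℝ) ^ (k - (A : ℤ)) := by
    rw [abs_mul, abs_of_pos (mul_pos two_pos r0)]
    calc 2 * (2 : ℝ) ^ (k - (n : ℤ)) * |w 0| ≤ 2 * (2 : ℝ) ^ (k - (A : ℤ)) * (1 / 2) := by gcongr
      _ = _ := by ring
  have a8 : |2 * (2 : ℝ) ^ (k - (n : ℤ)) * pr s w| ≤ 2 * (2 : ℝ) ^ (k - (A : ℤ)) := by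
    have h1 : |pr s w| ≤ 1 := by
      unfold pr
      calc |w 1 - s * w 0| ≤ |w 1| + |s * w 0| := abs_sub _ _
        _ = |w 1| + |s| * |w 0| := by rw [abs_mul]
        _ ≤ 1 / 2 + 1 * (1 / 2) := by gcongr
        _ = 1 := by norm_num
    rw [abs_mul, abs_of_pos (mul_pos two_pos r0)]
    calc 2 * (2 : ℝ) ^ (k - (n : ℤ)) * |pr s w| ≤ 2 * (2 : ℝ) ^ (k - (A : ℤ)) * 1 := by gcongr
      _ = _ := by ring
  constructor
  · have e : (y - ((2 : ℝ) ^ k • c' + ((2 : ℝ) ^ k * (2 : ℝ) ^ 0) • (t • E s') +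
        (2 * (2 : ℝ) ^ (k - (n : ℤ))) • w)) 0 - (x₀ - (2 : ℝ) ^ k • c) 0 =
        (y 0 - x₀ 0) + (2 : ℝ) ^ k * (c - c') 0 - (2 : ℝ) ^ k * t -
          2 * (2 : ℝ) ^ (k - (n : ℤ)) * w 0 := by
      simp only [PiLp.sub_apply, PiLp.add_apply, PiLp.smul_apply, smul_eq_mul, hE0]; ring
    rw [e]
    generalize (2 : ℝ) ^ k * (c - c') 0 = v1 at *
    generalize (2 : ℝ) ^ k * t = v2 at *
    generalize 2 * (2 : ℝ) ^ (k - (n : ℤ)) * w 0 = v3 at *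
    rw [abs_le] at q1 a3 a5 a7 ⊢
    constructor <;> linarith only [q1.1, q1.2, a3.1, a3.2, a5.1, a5.2, a7.1, a7.2, p21, p1]
  · have e : pr s (y - ((2 : ℝ) ^ k • c' + ((2 : ℝ) ^ k * (2 : ℝ) ^ 0) • (t • E s') +
        (2 * (2 : ℝ) ^ (k - (n : ℤ))) • w) - (x₀ - (2 : ℝ) ^ k • c)) =
        pr s (y - x₀) + (2 : ℝ) ^ k * pr s (c - c') - (2 : ℝ) ^ k * t * (s' - s) -
          2 * (2 : ℝ) ^ (k - (n : ℤ)) * pr s w := by
      simp only [pr, PiLp.sub_apply, PiLp.add_apply, PiLp.smul_apply, smul_eq_mul, hE0, hE1]; ring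
    rw [e]
    have r2 : (0 : ℝ) < (2 : ℝ) ^ (k - (A : ℤ)) := by positivity
    generalize (2 : ℝ) ^ k * pr s (c - c') = v1 at *
    generalize (2 : ℝ) ^ k * t * (s' - s) = v2 at *
    generalize 2 * (2 : ℝ) ^ (k - (n : ℤ)) * pr s w = v3 at *
    rw [abs_le] at q2 a4 a6 a8 ⊢
    constructor <;> linarith only [q2.1, q2.2, a4.1, a4.2, a6.1, a6.2, a8.1, a8.2, r2]

theorem cellE (hPT : StPT) (hCEF : StCEF) (hCEC : StCEC) (hCEY : StCEY) (hYB : StYB)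
    (C₀ CL : ℝ) (hC₀ : 0 < C₀) (hCL : 0 < CL) (u : ℕ) (s' : ℕ → ℝ) (c' : ℕ → Pl) (n n' : ℕ → ℕ)
    (R : ℝ) (K : ℕ) (A₁ σ : ℝ) (hsys : Sys u s' c' n n' C₀ R K A₁ σ)
    (s : ℝ) (c : Pl) (k : ℤ) (g' : Pl → ℝ)
    (η κ₁ : ℝ) (A1 : ℕ → ℕ) (hs : |s| ≤ 1) (hg' : BB g')
    (h01 : ∀ x, 0 ≤ g' x ∧ g' x ≤ 1) (hη : 0 < η) (hη1 : η ≤ 1) (hκ₁ : 0 < κ₁)
    (hκη : 720 * κ₁ ≤ η) (A₀ : ℕ) (x₀ : Pl)
    (near : ∀ b < 2 ^ u, |s' b - s| ≤ (2 : ℝ) ^ (-(A₀ : ℤ)) →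
        |(c - c' b) 0| ≤ 1 ∧ |pr s (c - c' b)| ≤ (2 : ℝ) ^ (-(A₀ : ℤ)) ∧ A₀ ≤ A1 b)
    (hL : ∑ b ∈ (Finset.range (2 ^ u)).filter (fun b => |s' b - s| ≤ (2 : ℝ) ^ (-(A₀ : ℤ)) ∧ A₀ ≤ n' b ∧
          |(c - c' b) 0| ≤ 1 ∧ |pr s (c - c' b)| ≤ (2 : ℝ) ^ (-(A₀ : ℤ))),
        ∫⁻ y in Cel s 2 2 k A₀ x₀, ‖Z (s' b) (c' b) (n b) (n' b) ((2 : ℝ) ^ 0) k g' y‖ₑ ^ 2 ≤
      ENNReal.ofReal CL * ∫⁻ y in Cel s 8 12 k A₀ (x₀ - (2 : ℝ) ^ k • c), ‖g' y‖ₑ ^ 2)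
    (b₀ : ℕ) (hb₀ : b₀ < 2 ^ u) (hb₀s : |s' b₀ - s| ≤ (2 : ℝ) ^ (-(A₀ : ℤ)))
    (hb₀κ : ∀ A' ≤ A1 b₀, CA (s' b₀) 12 30 k A' g' (x₀ - (2 : ℝ) ^ k • c' b₀) < κ₁) :
    volume {x | x ∈ Qc s k A₀ x₀ ∧ ∃ A b, A₀ ≤ A ∧ b < 2 ^ u ∧ |s' b - s| ≤ (2 : ℝ) ^ (-(A : ℤ)) ∧
        η ≤ |Z (s' b) (c' b) (n b) (n' b) ((2 : ℝ) ^ 0) k g' x| ∧
        A ≤ A1 b ∧ ∀ A' ≤ A1 b, CA (s' b) 12 30 k A' g' (x - (2 : ℝ) ^ k • c' b) < κ₁} ≤
      ENNReal.ofReal ((1440 * CL + 2880 * C₀ + 720) * κ₁ / η ^ 2) * volume (Qc s k A₀ x₀) := by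
  classical
  obtain ⟨hp, -, -, -, -, -, -, hSq⟩ := id hPT
  have p1 : (0 : ℝ) < (2 : ℝ) ^ k := by positivity
  have p2 : (0 : ℝ) < (2 : ℝ) ^ (k - (A₀ : ℤ)) := by positivity
  have p3 : (0 : ℝ) < (2 : ℝ) ^ (-(A₀ : ℤ)) := by positivity
  have p23 : (2 : ℝ) ^ k * (2 : ℝ) ^ (-(A₀ : ℤ)) = (2 : ℝ) ^ (k - (A₀ : ℤ)) := by
    rw [← zpow_add₀ (by norm_num)]; congr 1
  have p21 : (2 : ℝ) ^ (k - (A₀ : ℤ)) ≤ (2 : ℝ) ^ k := zpow_le_zpow_right₀ (by norm_num) (by omega)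
  set V : ℝ := (2 : ℝ) ^ k * (2 : ℝ) ^ (k - (A₀ : ℤ)) with hV
  have hVp : 0 < V := by positivity
  set T : Set Pl := Cel s 8 12 k A₀ (x₀ - (2 : ℝ) ^ k • c) with hT
  set Q : Set Pl := Qc s k A₀ x₀ with hQ
  have hQm : MeasurableSet Q := Qc_meas _ _ _ _
  have hQv : ENNReal.ofReal (1 / 4 * V) ≤ volume Q := Qc_vol hPT hCEF s hs k A₀ x₀
  have s'1 : ∀ b < 2 ^ u, |s' b| ≤ 1 := hsys.slope
  obtain ⟨hTm, hTv, hTC⟩ := hCEF s 8 12 k A₀ (x₀ - (2 : ℝ) ^ k • c) hs (by norm_num) (by norm_num)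
  -- the integral of `g'` over `T`
  have e0 : ∫ y in T, g' y ≤ 360 * κ₁ * V := by
    obtain ⟨n1, n2, n3⟩ := near b₀ hb₀ hb₀s
    have h1 : CA s 8 12 k A₀ g' (x₀ - (2 : ℝ) ^ k • c) ≤
        12 * 30 / (8 * 12) * CA (s' b₀) 12 30 k A₀ g' (x₀ - (2 : ℝ) ^ k • c' b₀) := by
      have hz : x₀ - (2 : ℝ) ^ k • c - (x₀ - (2 : ℝ) ^ k • c' b₀) = (-(2 : ℝ) ^ k) • (c - c' b₀) := by
        module
      refine hCEC s (s' b₀) 8 12 12 30 k A₀ g' _ _ hs (s'1 b₀ hb₀) (by norm_num) (by norm_num) hg'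
        (fun x => (h01 x).1) (by rw [abs_sub_comm]; exact hb₀s) ?_ ?_ (by norm_num) (by norm_num)
      · rw [hz, PiLp.smul_apply, smul_eq_mul, abs_mul, abs_neg, abs_of_pos p1]
        nlinarith
      · rw [hz, pr_smul, abs_mul, abs_neg, abs_of_pos p1, ← p23]
        exact mul_le_mul_of_nonneg_left n2 p1.le
    have h2 := hb₀κ A₀ n3
    have h3 := hTC g' hg'
    have h4 : (0 : ℝ) < 8 * 12 * (2 : ℝ) ^ k * (2 : ℝ) ^ (k - (A₀ : ℤ)) := by positivity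
    have h5 : ∫ y in T, g' y = 8 * 12 * V * CA s 8 12 k A₀ g' (x₀ - (2 : ℝ) ^ k • c) := by
      rw [h3, hV, hT]
      field_simp
    rw [h5]
    nlinarith
  have e1 : ∫⁻ y in T, ‖g' y‖ₑ ≤ ENNReal.ofReal (360 * κ₁ * V) := by
    have hint : Integrable g' (volume.restrict T) := by
      refine Measure.integrableOn_of_bounded (M := 1) ?_ hg'.1.aestronglyMeasurable ?_
      · rw [hT, hTv]; exact ENNReal.ofReal_ne_top
      · exact Eventually.of_forall fun x => by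
          rw [Real.norm_eq_abs, abs_of_nonneg (h01 x).1]; exact (h01 x).2
    have := ofReal_integral_eq_lintegral_ofReal hint (Eventually.of_forall fun x => (h01 x).1)
    have h' : ∫⁻ y in T, ‖g' y‖ₑ = ∫⁻ y in T, ENNReal.ofReal (g' y) := by
      refine lintegral_congr fun y => ?_
      rw [← ofReal_norm, Real.norm_eq_abs, abs_of_nonneg (h01 y).1]
    rw [h', ← this]
    exact ENNReal.ofReal_le_ofReal e0
  have e2 : ∫⁻ y in T, ‖g' y‖ₑ ^ 2 ≤ ENNReal.ofReal (360 * κ₁ * V) := by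
    refine le_trans (lintegral_mono fun y => ?_) e1
    have h1 : ‖g' y‖ₑ ≤ 1 := by
      rw [← ofReal_norm, Real.norm_eq_abs, abs_of_nonneg (h01 y).1]
      exact ENNReal.ofReal_le_one.2 (h01 y).2
    calc ‖g' y‖ₑ ^ 2 = ‖g' y‖ₑ * ‖g' y‖ₑ := sq _
      _ ≤ ‖g' y‖ₑ * 1 := by gcongr
      _ = ‖g' y‖ₑ := mul_one _
  set B1 : Finset ℕ := (Finset.range (2 ^ u)).filter (fun b => |s' b - s| ≤ (2 : ℝ) ^ (-(A₀ : ℤ)) ∧ A₀ ≤ n' b ∧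
          |(c - c' b) 0| ≤ 1 ∧ |pr s (c - c' b)| ≤ (2 : ℝ) ^ (-(A₀ : ℤ))) with hB1
  set B2 : Finset ℕ := (Finset.range (2 ^ u)).filter (fun b => |s' b - s| ≤ (2 : ℝ) ^ (-(A₀ : ℤ)) ∧ n' b < A₀ ∧
          A₀ ≤ n b) with hB2
  have hYm : ∀ b < 2 ^ u, ∀ j : ℕ, Measurable (Y (s' b) (c' b) j ((2 : ℝ) ^ 0) k g') := fun b hb j =>
    (hYB (s' b) (c' b) j ((2 : ℝ) ^ 0) k g' (s'1 b hb) (by norm_num) hg').1.1
  have hY0 : ∀ b < 2 ^ u, ∀ (j : ℕ) (x : Pl), 0 ≤ Y (s' b) (c' b) j ((2 : ℝ) ^ 0) k g' x := fun b hb j =>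
    (hYB (s' b) (c' b) j ((2 : ℝ) ^ 0) k g' (s'1 b hb) (by norm_num) hg').2.2.1 fun x => (h01 x).1
  -- small averages at coarse scales
  have hYs : ∀ b < 2 ^ u, ∀ x : Pl,
      (∀ A' ≤ A1 b, CA (s' b) 12 30 k A' g' (x - (2 : ℝ) ^ k • c' b) < κ₁) → ∀ j ≤ A1 b,
      2 * Y (s' b) (c' b) j ((2 : ℝ) ^ 0) k g' x < η := by
    intro b hb x hx j hj
    have h1 := (hCEY (s' b) (c' b) j k g' (s'1 b hb) hg' fun x => (h01 x).1).1 x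
    have h2 := hCEC (s' b) (s' b) 4 6 12 30 k j g' (x - (2 : ℝ) ^ k • c' b) (x - (2 : ℝ) ^ k • c' b)
      (s'1 b hb) (s'1 b hb) (by norm_num) (by norm_num) hg' (fun x => (h01 x).1)
      (by rw [sub_self, abs_zero]; positivity) (by rw [sub_self, PiLp.zero_apply, abs_zero]; positivity)
      (by rw [pr_sub, sub_self, abs_zero]; positivity) (by norm_num) (by norm_num)
    rw [show (12 : ℝ) * 30 / (4 * 6) = 15 by norm_num] at h2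
    have h3 := hx j hj
    linarith only [h1, h2, h3, hκη]
  have cover : {x | x ∈ Q ∧ ∃ A b, A₀ ≤ A ∧ b < 2 ^ u ∧ |s' b - s| ≤ (2 : ℝ) ^ (-(A : ℤ)) ∧
        η ≤ |Z (s' b) (c' b) (n b) (n' b) ((2 : ℝ) ^ 0) k g' x| ∧
        A ≤ A1 b ∧ ∀ A' ≤ A1 b, CA (s' b) 12 30 k A' g' (x - (2 : ℝ) ^ k • c' b) < κ₁} ⊆
      (⋃ b ∈ B1, {x | x ∈ Cel s 2 2 k A₀ x₀ ∧
        η ≤ |Z (s' b) (c' b) (n b) (n' b) ((2 : ℝ) ^ 0) k g' x|}) ∪
      ⋃ b ∈ B2, {x | x ∈ Q ∧ η ≤ |Y (s' b) (c' b) (n b) ((2 : ℝ) ^ 0) k g' x|} := by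
    rintro x ⟨hxQ, A, b, hA, hb, hbs, hZ, hA1, hsm⟩
    have hbs' : |s' b - s| ≤ (2 : ℝ) ^ (-(A₀ : ℤ)) :=
      hbs.trans (zpow_le_zpow_right₀ (by norm_num) (by omega))
    obtain ⟨n1, n2, n3⟩ := near b hb hbs'
    by_cases hn : A₀ ≤ n' b
    · left
      refine mem_biUnion (x := b) ?_ ⟨?_, hZ⟩
      · rw [hB1, Finset.coe_filter]
        exact ⟨Finset.mem_range.2 hb, hbs', hn, n1, n2⟩
      · obtain ⟨q1, q2⟩ := Qc_near hxQ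
        constructor
        · linarith
        · linarith
    · right
      push Not at hn
      have hy' := hYs b hb x hsm (n' b) (by omega)
      have hy0' := hY0 b hb (n' b) x
      have hy0 := hY0 b hb (n b) x
      have hYb : η ≤ Y (s' b) (c' b) (n b) ((2 : ℝ) ^ 0) k g' x := by
        unfold Z at hZ
        rcases le_abs.1 hZ with h | h
        · linarith only [h, hy0']
        · linarith only [h, hy0, hy', hη]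
      refine mem_biUnion (x := b) ?_ ⟨hxQ, ?_⟩
      · rw [hB2, Finset.coe_filter]
        refine ⟨Finset.mem_range.2 hb, hbs', hn, ?_⟩
        by_contra hcon
        push Not at hcon
        have := hYs b hb x hsm (n b) (by omega)
        linarith only [this, hYb, hη]
      · rw [abs_of_nonneg hy0]; exact hYb
  have m1 : ∑ b ∈ B1, volume {x | x ∈ Cel s 2 2 k A₀ x₀ ∧
        η ≤ |Z (s' b) (c' b) (n b) (n' b) ((2 : ℝ) ^ 0) k g' x|} ≤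
      ENNReal.ofReal (1 / η ^ 2) * (ENNReal.ofReal CL * ENNReal.ofReal (360 * κ₁ * V)) := by
    calc ∑ b ∈ B1, volume {x | x ∈ Cel s 2 2 k A₀ x₀ ∧
        η ≤ |Z (s' b) (c' b) (n b) (n' b) ((2 : ℝ) ^ 0) k g' x|}
        ≤ ∑ b ∈ B1, ENNReal.ofReal (1 / η ^ 2) * ∫⁻ y in Cel s 2 2 k A₀ x₀,
            ‖Z (s' b) (c' b) (n b) (n' b) ((2 : ℝ) ^ 0) k g' y‖ₑ ^ 2 := by
          refine Finset.sum_le_sum fun b hb => ?_
          have hb' : b < 2 ^ u := Finset.mem_range.1 (Finset.mem_filter.1 hb).1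
          refine cheb 2 _ ?_ _ ?_ η hη
          · exact (hYm b hb' _).sub (hYm b hb' _)
          · exact (hCEF s 2 2 k A₀ x₀ hs (by norm_num) (by norm_num)).1
      _ = ENNReal.ofReal (1 / η ^ 2) * ∑ b ∈ B1, ∫⁻ y in Cel s 2 2 k A₀ x₀,
            ‖Z (s' b) (c' b) (n b) (n' b) ((2 : ℝ) ^ 0) k g' y‖ₑ ^ 2 := by rw [Finset.mul_sum]
      _ ≤ ENNReal.ofReal (1 / η ^ 2) * (ENNReal.ofReal CL * ∫⁻ y in T, ‖g' y‖ₑ ^ 2) := by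
          gcongr
      _ ≤ _ := by gcongr
  have m2 : ∑ b ∈ B2, volume {x | x ∈ Q ∧ η ≤ |Y (s' b) (c' b) (n b) ((2 : ℝ) ^ 0) k g' x|} ≤
      ENNReal.ofReal (2 * C₀) * (ENNReal.ofReal (1 / η) * ENNReal.ofReal (360 * κ₁ * V)) := by
    have hcard : (B2.card : ℝ) ≤ 2 * C₀ := by
      have hw : (0 : ℝ) < (2 : ℝ) ^ u * (2 : ℝ) ^ (1 - (A₀ : ℤ)) := by positivity
      have h1 := hsys.cnt ((2 : ℝ) ^ u * (2 : ℝ) ^ (1 - (A₀ : ℤ))) ((2 : ℝ) ^ (-(A₀ : ℤ))) s hw p3.le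
      have h2 : (B2.card : ℝ) ≤ ({j : ℕ | j < 2 ^ u ∧ (2 : ℝ) ^ u * (2 : ℝ) ^ (1 - (A₀ : ℤ)) ≤
          (2 : ℝ) ^ u * (2 : ℝ) ^ (-(n' j : ℤ)) ∧ |s' j - s| ≤ (2 : ℝ) ^ (-(A₀ : ℤ))}.ncard : ℝ) := by
        rw [← Set.ncard_coe_finset]
        refine Nat.cast_le.2 (Set.ncard_le_ncard ?_ ?_)
        · intro b hb
          rw [hB2, Finset.coe_filter] at hb
          obtain ⟨hb1, hb2, hb3, hb4⟩ := hb
          refine ⟨Finset.mem_range.1 hb1, ?_, hb2⟩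
          refine mul_le_mul_of_nonneg_left (zpow_le_zpow_right₀ (by norm_num) (by omega)) (by positivity)
        · exact (Set.finite_lt_nat (2 ^ u)).subset fun b hb => hb.1
      have h3 : (2 : ℝ) ^ (-(A₀ : ℤ)) / ((2 : ℝ) ^ u * (2 : ℝ) ^ (1 - (A₀ : ℤ))) ≤ 1 := by
        rw [div_le_one hw]
        have h4 : (1 : ℝ) ≤ (2 : ℝ) ^ u := one_le_pow₀ (by norm_num)
        have h5 : (2 : ℝ) ^ (-(A₀ : ℤ)) ≤ (2 : ℝ) ^ (1 - (A₀ : ℤ)) :=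
          zpow_le_zpow_right₀ (by norm_num) (by omega)
        have h6 : (0 : ℝ) < (2 : ℝ) ^ (1 - (A₀ : ℤ)) := by positivity
        nlinarith
      nlinarith
    have hterm : ∀ b ∈ B2, volume {x | x ∈ Q ∧ η ≤ |Y (s' b) (c' b) (n b) ((2 : ℝ) ^ 0) k g' x|} ≤
        ENNReal.ofReal (1 / η) * ENNReal.ofReal (360 * κ₁ * V) := by
      intro b hb
      obtain ⟨hb1, hb2, hb3, hb4⟩ := Finset.mem_filter.1 hb
      have hb' : b < 2 ^ u := Finset.mem_range.1 hb1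
      obtain ⟨n1, n2, n3⟩ := near b hb' hb2
      have h1 := cheb 1 _ (hYm b hb' (n b)) Q hQm η hη
      simp only [pow_one] at h1
      refine h1.trans ?_
      gcongr
      refine le_trans ?_ e1
      obtain ⟨hq1, hq2⟩ := hSq 0 (1 / 2) (by norm_num)
      refine lint_Y (s' b) (c' b) (n b) k g' hg'.1 Q T hQm hTm ?_ (by rw [hq2]; norm_num) hq1
      intro y hy t ht w hw
      exact locT hPT s (s' b) hs k A₀ (n b) hb4 x₀ y c (c' b) n1 n2 hb2 hy t ht w hw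
    calc ∑ b ∈ B2, volume {x | x ∈ Q ∧ η ≤ |Y (s' b) (c' b) (n b) ((2 : ℝ) ^ 0) k g' x|}
        ≤ ∑ b ∈ B2, ENNReal.ofReal (1 / η) * ENNReal.ofReal (360 * κ₁ * V) := Finset.sum_le_sum hterm
      _ = ENNReal.ofReal (B2.card : ℝ) * (ENNReal.ofReal (1 / η) * ENNReal.ofReal (360 * κ₁ * V)) := by
          rw [Finset.sum_const, nsmul_eq_mul, ENNReal.ofReal_natCast]
      _ ≤ _ := by gcongr
  have hη2 : 1 / η ≤ 1 / η ^ 2 := by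
    apply one_div_le_one_div_of_le (by positivity)
    nlinarith
  calc _ ≤ volume ((⋃ b ∈ B1, {x | x ∈ Cel s 2 2 k A₀ x₀ ∧
        η ≤ |Z (s' b) (c' b) (n b) (n' b) ((2 : ℝ) ^ 0) k g' x|}) ∪
      ⋃ b ∈ B2, {x | x ∈ Q ∧ η ≤ |Y (s' b) (c' b) (n b) ((2 : ℝ) ^ 0) k g' x|}) := measure_mono cover
    _ ≤ volume (⋃ b ∈ B1, {x | x ∈ Cel s 2 2 k A₀ x₀ ∧
        η ≤ |Z (s' b) (c' b) (n b) (n' b) ((2 : ℝ) ^ 0) k g' x|}) +
        volume (⋃ b ∈ B2, {x | x ∈ Q ∧ η ≤ |Y (s' b) (c' b) (n b) ((2 : ℝ) ^ 0) k g' x|}) :=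
        measure_union_le _ _
    _ ≤ ENNReal.ofReal (1 / η ^ 2) * (ENNReal.ofReal CL * ENNReal.ofReal (360 * κ₁ * V)) +
        ENNReal.ofReal (2 * C₀) * (ENNReal.ofReal (1 / η) * ENNReal.ofReal (360 * κ₁ * V)) :=
        add_le_add ((measure_biUnion_finset_le _ _).trans m1) ((measure_biUnion_finset_le _ _).trans m2)
    _ = ENNReal.ofReal (1 / η ^ 2 * (CL * (360 * κ₁ * V)) + 2 * C₀ * (1 / η * (360 * κ₁ * V))) := by
        rw [← ENNReal.ofReal_mul hCL.le, ← ENNReal.ofReal_mul (by positivity : (0 : ℝ) ≤ 1 / η ^ 2),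
          ← ENNReal.ofReal_mul (by positivity : (0 : ℝ) ≤ 1 / η),
          ← ENNReal.ofReal_mul (by positivity : (0 : ℝ) ≤ 2 * C₀),
          ← ENNReal.ofReal_add (by positivity) (by positivity)]
    _ ≤ ENNReal.ofReal ((1440 * CL + 2880 * C₀ + 720) * κ₁ / η ^ 2 * (1 / 4 * V)) := by
        refine ENNReal.ofReal_le_ofReal ?_
        have h1 : 2 * C₀ * (1 / η * (360 * κ₁ * V)) ≤ 2 * C₀ * (1 / η ^ 2 * (360 * κ₁ * V)) := by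
          gcongr
        have h2 : (1440 * CL + 2880 * C₀ + 720) * κ₁ / η ^ 2 * (1 / 4 * V) =
            1 / η ^ 2 * (CL * (360 * κ₁ * V)) + 2 * C₀ * (1 / η ^ 2 * (360 * κ₁ * V)) +
              180 * κ₁ * V * (1 / η ^ 2) := by ring
        have h3 : 0 ≤ 180 * κ₁ * V * (1 / η ^ 2) := by positivity
        rw [h2]; linarith
    _ = ENNReal.ofReal ((1440 * CL + 2880 * C₀ + 720) * κ₁ / η ^ 2) * ENNReal.ofReal (1 / 4 * V) :=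
        ENNReal.ofReal_mul (by positivity)
    _ ≤ _ := by gcongr

/-- summation over the maximal dyadic cells -/
theorem maxcells (s : ℝ) (k : ℤ) (P : Pl → ℕ → Prop) (Y : Set Pl) (D : ℝ≥0∞)
    (h1 : ∀ x₀ A₀, P x₀ A₀ → Qc s k A₀ x₀ ⊆ Y)
    (h2 : ∀ x₀ A₀, P x₀ A₀ → volume {x | x ∈ Qc s k A₀ x₀ ∧ ∃ A, A₀ ≤ A ∧ P x A} ≤
      D * volume (Qc s k A₀ x₀)) :
    volume {x | ∃ A, P x A} ≤ D * volume Y := by
  classical
  let W : Pl → ℕ → Prop := fun x A => ∃ x', x' ∈ Qc s k A x ∧ P x' A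
  let AR : Pl → ℕ := fun x => sInf {A | W x A}
  let idx : Pl → ℕ × ℤ × ℤ := fun x =>
    (AR x, ⌊x 0 / (2 : ℝ) ^ k⌋, ⌊pr s x / (2 : ℝ) ^ (k - (AR x : ℤ))⌋)
  let Fib : ℕ × ℤ × ℤ → Set Pl := fun t => {x | (∃ A, W x A) ∧ idx x = t}
  have hWR : ∀ x, (∃ A, W x A) → W x (AR x) := fun x hx => Nat.sInf_mem hx
  have hRle : ∀ x A, W x A → AR x ≤ A := fun x A h => Nat.sInf_le h
  have hFib : ∀ x, (∃ A, W x A) → Fib (idx x) = Qc s k (AR x) x := by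
    intro x hx
    ext y
    constructor
    · rintro ⟨-, hy⟩
      have e1 : AR y = AR x := congrArg Prod.fst hy
      have e2 : ⌊y 0 / (2 : ℝ) ^ k⌋ = ⌊x 0 / (2 : ℝ) ^ k⌋ := congrArg (fun t => t.2.1) hy
      have e3 : ⌊pr s y / (2 : ℝ) ^ (k - (AR y : ℤ))⌋ = ⌊pr s x / (2 : ℝ) ^ (k - (AR x : ℤ))⌋ :=
        congrArg (fun t => t.2.2) hy
      rw [e1] at e3
      exact ⟨e2, e3⟩
    · intro hy
      have hW : ∀ A' ≤ AR x, (W y A' ↔ W x A') := by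
        intro A' hA'
        have := Qc_eq (Qc_mono hA' hy)
        show (∃ x', x' ∈ Qc s k A' y ∧ P x' A') ↔ ∃ x', x' ∈ Qc s k A' x ∧ P x' A'
        rw [this]
      have hy1 : W y (AR x) := (hW _ le_rfl).2 (hWR x hx)
      have hle : AR y ≤ AR x := hRle y _ hy1
      have hy2 : W y (AR y) := hWR y ⟨_, hy1⟩
      have hge : AR x ≤ AR y := hRle x _ ((hW _ hle).1 hy2)
      have e1 : AR y = AR x := le_antisymm hle hge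
      refine ⟨⟨_, hy1⟩, ?_⟩
      show (AR y, ⌊y 0 / (2 : ℝ) ^ k⌋, ⌊pr s y / (2 : ℝ) ^ (k - (AR y : ℤ))⌋) =
        (AR x, ⌊x 0 / (2 : ℝ) ^ k⌋, ⌊pr s x / (2 : ℝ) ^ (k - (AR x : ℤ))⌋)
      rw [e1, hy.1, hy.2]
  have hcase : ∀ t, Fib t = ∅ ∨ ∃ x₀ A₀, P x₀ A₀ ∧ Fib t = Qc s k A₀ x₀ ∧
      ∀ y ∈ Fib t, ∀ A, P y A → A₀ ≤ A := by
    intro t
    rcases (Fib t).eq_empty_or_nonempty with h | ⟨x, hx⟩
    · exact Or.inl h
    · right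
      obtain ⟨hx1, rfl⟩ := hx
      obtain ⟨x₀, h3, h4⟩ := hWR x hx1
      refine ⟨x₀, AR x, h4, ?_, ?_⟩
      · rw [hFib x hx1, Qc_eq h3]
      · rintro y ⟨-, hy⟩ A hA
        have e1 : AR y = AR x := congrArg Prod.fst hy
        rw [← e1]
        exact hRle y A ⟨y, mem_Qc_self _ _ _ _, hA⟩
  have hmeas : ∀ t, MeasurableSet (Fib t) := by
    intro t
    rcases hcase t with h | ⟨x₀, A₀, -, h, -⟩
    · rw [h]; exact MeasurableSet.empty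
    · rw [h]; exact Qc_meas _ _ _ _
  have hdisj : Pairwise (Function.onFun Disjoint Fib) := by
    intro t t' htt
    refine Set.disjoint_left.2 ?_
    rintro x ⟨-, h3⟩ ⟨-, h4⟩
    exact htt (h3.symm.trans h4)
  have hYsub : (⋃ t, Fib t) ⊆ Y := by
    refine iUnion_subset fun t => ?_
    rcases hcase t with h | ⟨x₀, A₀, h3, h, -⟩
    · rw [h]; exact empty_subset _
    · rw [h]; exact h1 _ _ h3
  have hcov : {x | ∃ A, P x A} ⊆ ⋃ t, ({x | ∃ A, P x A} ∩ Fib t) := by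
    rintro x ⟨A, hA⟩
    refine mem_iUnion.2 ⟨idx x, ⟨A, hA⟩, ⟨A, x, mem_Qc_self _ _ _ _, hA⟩, rfl⟩
  have hest : ∀ t, volume ({x | ∃ A, P x A} ∩ Fib t) ≤ D * volume (Fib t) := by
    intro t
    rcases hcase t with h | ⟨x₀, A₀, h3, h, h4⟩
    · rw [h]; simp
    · refine le_trans (measure_mono ?_) ((h2 x₀ A₀ h3).trans (by rw [h]))
      rintro x ⟨⟨A, hA⟩, hx⟩
      have := h4 x hx A hA
      rw [h] at hx
      exact ⟨hx, A, this, hA⟩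
  calc volume {x | ∃ A, P x A} ≤ volume (⋃ t, ({x | ∃ A, P x A} ∩ Fib t)) := measure_mono hcov
    _ ≤ ∑' t, volume ({x | ∃ A, P x A} ∩ Fib t) := measure_iUnion_le _
    _ ≤ ∑' t, D * volume (Fib t) := ENNReal.tsum_le_tsum hest
    _ = D * volume (⋃ t, Fib t) := by rw [ENNReal.tsum_mul_left, measure_iUnion hdisj hmeas]
    _ ≤ D * volume Y := by gcongr

theorem hGON (hPT : StPT) (hLBC : StLBC) (hCEF : StCEF) (hCEC : StCEC) (hCEY : StCEY)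
    (hYB : StYB) : StGON := by
  intro C₀ hC₀
  obtain ⟨CL, hCL, hL⟩ := hLBC C₀ hC₀
  refine ⟨1440 * CL + 2880 * C₀ + 720, by nlinarith, ?_⟩
  intro u s' c' n n' R K A₁ σ hsys s c m k g g' η κ κ₁ A1 G hs hg hg' h01 h01' hη hη1 hκ hκ₁ hC near
  have hκη : 720 * κ₁ ≤ η := by
    have : 0 ≤ (1440 * CL + 2880 * C₀) * κ₁ := by positivity
    nlinarith
  have p1 : (0 : ℝ) < (2 : ℝ) ^ k := by positivity
  have key := maxcells s k (fun x A => x ∈ G ∧ A ≤ m ∧ κ ≤ CA s 4 6 k A g (x - (2 : ℝ) ^ k • c) ∧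
        ∃ b < 2 ^ u, |s' b - s| ≤ (2 : ℝ) ^ (-(A : ℤ)) ∧
          η ≤ |Z (s' b) (c' b) (n b) (n' b) ((2 : ℝ) ^ 0) k g' x| ∧
          ∀ A' ≤ A1 b, CA (s' b) 12 30 k A' g' (x - (2 : ℝ) ^ k • c' b) < κ₁)
    {x | (∃ x' ∈ G, x' ∈ Sq x (2 * (2 : ℝ) ^ k)) ∧
          ∃ A ≤ m, κ / 4 ≤ CA s 6 16 k A g (x - (2 : ℝ) ^ k • c)}
    (ENNReal.ofReal ((1440 * CL + 2880 * C₀ + 720) * κ₁ / η ^ 2)) ?_ ?_
  · refine le_trans (measure_mono ?_) key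
    rintro x ⟨hx1, A, hA, hx2, hx3⟩
    exact ⟨A, hx1, hA, hx2, hx3⟩
  · rintro x₀ A₀ ⟨hx1, hA, hx2, -⟩ y hy
    obtain ⟨q1, q2⟩ := Qc_near hy
    have p21 : (2 : ℝ) ^ (k - (A₀ : ℤ)) ≤ (2 : ℝ) ^ k := zpow_le_zpow_right₀ (by norm_num) (by omega)
    have q1' : |x₀ 0 - y 0| ≤ (2 : ℝ) ^ k := by rw [abs_sub_comm]; exact q1
    refine ⟨⟨x₀, hx1, ?_, ?_⟩, A₀, hA, ?_⟩
    · linarith
    · have e : x₀ 1 - y 1 = -(pr s (y - x₀)) + s * (x₀ 0 - y 0) := by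
        simp only [pr, PiLp.sub_apply]; ring
      rw [e]
      calc |-(pr s (y - x₀)) + s * (x₀ 0 - y 0)| ≤ |-(pr s (y - x₀))| + |s * (x₀ 0 - y 0)| :=
            abs_add_le _ _
        _ = |pr s (y - x₀)| + |s| * |x₀ 0 - y 0| := by rw [abs_neg, abs_mul]
        _ ≤ (2 : ℝ) ^ k + 1 * (2 : ℝ) ^ k := by gcongr; exact q2.trans p21
        _ = _ := by ring
    · have hz : x₀ - (2 : ℝ) ^ k • c - (y - (2 : ℝ) ^ k • c) = x₀ - y := by abel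
      have h1 := hCEC s s 4 6 6 16 k A₀ g (x₀ - (2 : ℝ) ^ k • c) (y - (2 : ℝ) ^ k • c) hs hs
        (by norm_num) (by norm_num) hg (fun x => (h01 x).1) (by rw [sub_self, abs_zero]; positivity)
        (by rw [hz, PiLp.sub_apply]; exact q1')
        (by rw [hz, ← neg_sub, show pr s (-(y - x₀)) = -(pr s (y - x₀)) by
              simp only [pr, PiLp.neg_apply, PiLp.sub_apply]; ring, abs_neg]; exact q2)
        (by norm_num) (by norm_num)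
      rw [show (6 : ℝ) * 16 / (4 * 6) = 4 by norm_num] at h1
      linarith
  · rintro x₀ A₀ ⟨hx1, hA, hx2, b₀, hb₀, hb₀s, -, hb₀κ⟩
    refine le_trans (measure_mono ?_) (cellE hPT hCEF hCEC hCEY hYB C₀ CL hC₀ hCL u s' c' n n' R K A₁ σ
      hsys s c k g' η κ₁ A1 hs hg' h01' hη hη1 hκ₁ hκη A₀ x₀ (fun b hb hbs => near b hb A₀ hA hbs)
      (hL u s' c' n n' R K A₁ σ hsys s c x₀ k A₀ g' hs hg') b₀ hb₀ hb₀s hb₀κ)
    rintro x ⟨hxQ, A, hAA, hxG, hAm, -, b, hb, hbs, hZ, hsm⟩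
    exact ⟨hxQ, A, b, hAA, hb, hbs, hZ, (near b hb A hAm hbs).2.2, hsm⟩

end Pool.Agent.Helper97.EQ
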